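import Pool.Agent.R470.VM.Asm3

/-! # Vinogradov's system: solutions with few far pairs, without loss of an `ε` -/

set_option autoImplicit false

namespace Pool.Agent.Results.MP_e21eee_nt.NearDiagonal

open Finset

open scoped Classical in
/-- The solutions `(x, y)` in `[1,N]` of Vinogradov's system of degree `k` in `s` pairs of variables such
that, for some permutation `σ`, at most `r` indices `i` have `|x_i - y_{σ i}| > H`. -/
noncomputable def fewFar (s k r N : ℕ) (H : ℝ) : Finset ((Fin s → ℕ) × (Fin s → ℕ)) :=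
  ((Fintype.piFinset fun _ : Fin s => Finset.Icc 1 N) ×ˢ
    (Fintype.piFinset fun _ : Fin s => Finset.Icc 1 N)).filter fun p =>
    (∀ j : Fin k, ∑ i : Fin s, p.1 i ^ (j.val + 1) = ∑ i : Fin s, p.2 i ^ (j.val + 1)) ∧
    ∃ σ : Equiv.Perm (Fin s),
      (Finset.univ.filter fun i => H < |(p.1 i : ℝ) - (p.2 (σ i) : ℝ)|).card ≤ r

open scoped Classical in
/-- The non-diagonal ones among the solutions in `fewFar`: `y` is not a permutation of `x`. -/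
noncomputable def nonDiag (s k r N : ℕ) (H : ℝ) : Finset ((Fin s → ℕ) × (Fin s → ℕ)) :=
  (fewFar s k r N H).filter fun p => ¬ ∃ σ : Equiv.Perm (Fin s), p.2 = p.1 ∘ σ

theorem sub_floor (s k r N : ℕ) (H : ℝ) :
    nonDiag s k r N H ⊆ Pool.Agent.R470.VM.NDRP s k r N ⌊H⌋₊ := by
  classical
  intro p hp
  rw [nonDiag, fewFar, mem_filter, mem_filter] at hp
  obtain ⟨⟨h1, h2, σ, h3⟩, h4⟩ := hp
  rw [Pool.Agent.R470.VM.NDRP, mem_filter]
  refine ⟨h1, h2, ⟨σ, le_trans (card_le_card ?_) h3⟩, h4⟩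
  intro i hi
  rw [mem_filter] at hi ⊢
  refine ⟨hi.1, ?_⟩
  have h5 : (⌊H⌋₊ : ℤ) < ((|(p.1 i : ℤ) - p.2 (σ i)|).toNat : ℤ) := by
    rw [Int.toNat_of_nonneg (abs_nonneg _)]
    exact hi.2
  have h6 : ⌊H⌋₊ < (|(p.1 i : ℤ) - p.2 (σ i)|).toNat := by exact_mod_cast h5
  have h7 := Nat.lt_of_floor_lt h6
  have h8 : (((|(p.1 i : ℤ) - p.2 (σ i)|).toNat : ℕ) : ℝ) = |(p.1 i : ℝ) - (p.2 (σ i) : ℝ)| := by
    have h9 : (((|(p.1 i : ℤ) - p.2 (σ i)|).toNat : ℤ) : ℝ) = ((|(p.1 i : ℤ) - p.2 (σ i)| : ℤ) : ℝ) := by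
      rw [Int.toNat_of_nonneg (abs_nonneg _)]
    rw [Int.cast_natCast] at h9
    rw [h9]
    push_cast
    rfl
  rw [← h8]
  exact h7

theorem bound (s k r : ℕ) (hk : 2 ≤ k) (hs : k < s) (h1 : 1 ≤ r) (hr : r ≤ k) :
    ∃ C : ℕ, ∀ N H : ℕ, 1 ≤ H → H ≤ N → (Pool.Agent.R470.VM.NDRP s k r N H).card ≤
      C * (H ^ (s - r) * N ^ (s - k + r) + H ^ k * N ^ (s - 2)) := by
  obtain ⟨n, rfl⟩ : ∃ n, k = n + 1 := ⟨k - 1, by omega⟩
  refine ⟨s.factorial * Pool.Agent.R470.VM.C2 s n, fun N H hH hHN => ?_⟩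
  refine (Pool.Agent.R470.VM.ndrp_le N H).trans ?_
  rw [mul_assoc]
  exact Nat.mul_le_mul_left _ (Pool.Agent.R470.VM.ndr_bound (by omega) h1 (by omega) N H hH hHN)

theorem real_bound (s k r : ℕ) (hk : 2 ≤ k) (hs : k < s) (h1 : 1 ≤ r) (hr : r ≤ k) :
    ∃ C : ℝ, ∀ θ δ : ℝ, 0 ≤ θ → θ ≤ 1 → θ * ((s : ℝ) - r) ≤ (k : ℝ) - r - δ → θ * k ≤ 2 - δ →
      ∀ N : ℕ, 1 ≤ N → ((nonDiag s k r N ((N : ℝ) ^ θ)).card : ℝ) ≤ C * (N : ℝ) ^ ((s : ℝ) - δ) := by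
  obtain ⟨C, hC⟩ := bound s k r hk hs h1 hr
  refine ⟨2 * C, fun θ δ h0 hθ1 ha hb N hN => ?_⟩
  have hN1 : (1 : ℝ) ≤ (N : ℝ) := by exact_mod_cast hN
  have hN0 : (0 : ℝ) < (N : ℝ) := by linarith
  have hX1 : (1 : ℝ) ≤ (N : ℝ) ^ θ := Real.one_le_rpow hN1 h0
  have hXN : (N : ℝ) ^ θ ≤ N := by
    calc (N : ℝ) ^ θ ≤ (N : ℝ) ^ (1 : ℝ) := Real.rpow_le_rpow_of_exponent_le hN1 hθ1
      _ = N := Real.rpow_one _
  have hH1 : 1 ≤ ⌊(N : ℝ) ^ θ⌋₊ := Nat.le_floor (by simpa using hX1)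
  have hHN : ⌊(N : ℝ) ^ θ⌋₊ ≤ N := by
    have := Nat.floor_le_floor hXN
    simpa using this
  have hH : ((⌊(N : ℝ) ^ θ⌋₊ : ℕ) : ℝ) ≤ (N : ℝ) ^ θ := Nat.floor_le (by positivity)
  have h2 := (card_le_card (sub_floor s k r N ((N : ℝ) ^ θ))).trans (hC N _ hH1 hHN)
  have h3 : ((nonDiag s k r N ((N : ℝ) ^ θ)).card : ℝ) ≤
      C * (((⌊(N : ℝ) ^ θ⌋₊ : ℕ) : ℝ) ^ (s - r) * (N : ℝ) ^ (s - k + r) +
        ((⌊(N : ℝ) ^ θ⌋₊ : ℕ) : ℝ) ^ k * (N : ℝ) ^ (s - 2)) := by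
    exact_mod_cast h2
  have hp : ∀ m : ℕ, ((⌊(N : ℝ) ^ θ⌋₊ : ℕ) : ℝ) ^ m ≤ (N : ℝ) ^ (θ * m) := by
    intro m
    calc ((⌊(N : ℝ) ^ θ⌋₊ : ℕ) : ℝ) ^ m ≤ ((N : ℝ) ^ θ) ^ m := pow_le_pow_left₀ (by positivity) hH m
      _ = (N : ℝ) ^ (θ * m) := by rw [Real.rpow_mul hN0.le, Real.rpow_natCast]
  have h4 : ((⌊(N : ℝ) ^ θ⌋₊ : ℕ) : ℝ) ^ (s - r) * (N : ℝ) ^ (s - k + r) ≤
      (N : ℝ) ^ ((s : ℝ) - δ) := by
    calc _ ≤ (N : ℝ) ^ (θ * ((s - r : ℕ) : ℝ)) * (N : ℝ) ^ (((s - k + r : ℕ)) : ℝ) := by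
          rw [Real.rpow_natCast]
          exact mul_le_mul_of_nonneg_right (hp _) (by positivity)
      _ = (N : ℝ) ^ (θ * ((s - r : ℕ) : ℝ) + ((s - k + r : ℕ) : ℝ)) := (Real.rpow_add hN0 _ _).symm
      _ ≤ (N : ℝ) ^ ((s : ℝ) - δ) := by
          apply Real.rpow_le_rpow_of_exponent_le hN1
          rw [Nat.cast_add, Nat.cast_sub (by omega : r ≤ s), Nat.cast_sub hs.le]
          linarith
  have h5 : ((⌊(N : ℝ) ^ θ⌋₊ : ℕ) : ℝ) ^ k * (N : ℝ) ^ (s - 2) ≤ (N : ℝ) ^ ((s : ℝ) - δ) := by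
    calc _ ≤ (N : ℝ) ^ (θ * (k : ℝ)) * (N : ℝ) ^ (((s - 2 : ℕ)) : ℝ) := by
          rw [Real.rpow_natCast]
          exact mul_le_mul_of_nonneg_right (hp _) (by positivity)
      _ = (N : ℝ) ^ (θ * (k : ℝ) + ((s - 2 : ℕ) : ℝ)) := (Real.rpow_add hN0 _ _).symm
      _ ≤ (N : ℝ) ^ ((s : ℝ) - δ) := by
          apply Real.rpow_le_rpow_of_exponent_le hN1
          rw [Nat.cast_sub (by omega : 2 ≤ s)]
          push_cast
          linarith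
  calc ((nonDiag s k r N ((N : ℝ) ^ θ)).card : ℝ) ≤ _ := h3
    _ ≤ C * ((N : ℝ) ^ ((s : ℝ) - δ) + (N : ℝ) ^ ((s : ℝ) - δ)) :=
        mul_le_mul_of_nonneg_left (add_le_add h4 h5) (by positivity)
    _ = _ := by ring

/-- Let `2 ≤ k < s`.
1. The number of non-diagonal solutions in `[1,N]` of Vinogradov's system of degree `k` in `s` pairs of
variables for which all pairs, after a permutation of `y`, have distance at most `H` is
`O(H^(s-1) N^(s-k+1) + H^k N^(s-3))`, for all integers `1 ≤ H ≤ N`.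
2. For `1 ≤ r ≤ k`, the number of those for which all but at most `r` pairs have distance at most `H` is
`O(H^(s-r) N^(s-k+r) + H^k N^(s-2))`.
3. For `1 ≤ r < k` and `0 ≤ θ < min((k-r)/(s-r), 2/k)`, only `O(N^(s-δ))` non-diagonal solutions have at
most `r` pairs at distance more than `N^θ`, for some `δ > 0`.
4. For `1 ≤ r < k` and `θ = min((k-r)/(s-r), 2/k)`, only `O(N^s)` solutions have at most `r` pairs at
distance more than `N^θ`. -/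
theorem result (s k : ℕ) (hk : 2 ≤ k) (hs : k < s) :
    (∃ C : ℕ, ∀ N H : ℕ, 1 ≤ H → H ≤ N →
      (nonDiag s k 0 N H).card ≤ C * (H ^ (s - 1) * N ^ (s - k + 1) + H ^ k * N ^ (s - 3))) ∧
    (∀ r : ℕ, 1 ≤ r → r ≤ k → ∃ C : ℕ, ∀ N H : ℕ, 1 ≤ H → H ≤ N →
      (nonDiag s k r N H).card ≤ C * (H ^ (s - r) * N ^ (s - k + r) + H ^ k * N ^ (s - 2))) ∧
    (∀ r : ℕ, 1 ≤ r → r < k → ∀ θ : ℝ, 0 ≤ θ →
      θ < min (((k : ℝ) - r) / ((s : ℝ) - r)) (2 / (k : ℝ)) →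
      ∃ δ : ℝ, 0 < δ ∧ ∃ C : ℝ, ∀ N : ℕ, 1 ≤ N →
        ((nonDiag s k r N ((N : ℝ) ^ θ)).card : ℝ) ≤ C * (N : ℝ) ^ ((s : ℝ) - δ)) ∧
    (∀ r : ℕ, 1 ≤ r → r < k → ∃ C : ℝ, ∀ N : ℕ, 1 ≤ N →
      ((fewFar s k r N ((N : ℝ) ^ min (((k : ℝ) - r) / ((s : ℝ) - r)) (2 / (k : ℝ)))).card : ℝ) ≤
        C * (N : ℝ) ^ s) := by
  classical
  have hk0 : (0 : ℝ) < (k : ℝ) := by exact_mod_cast (by omega : 0 < k)
  refine ⟨?_, ?_, ?_, ?_⟩
  · refine ⟨s.factorial * Pool.Agent.R470.VM.CC s (k - 1), fun N H hH hHN => ?_⟩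
    refine le_trans (card_le_card ?_) (Pool.Agent.R470.VM.ndp_bound hk N H hH hHN)
    intro p hp
    have h1 := sub_floor s k 0 N H hp
    rw [Nat.floor_natCast, Pool.Agent.R470.VM.NDRP, mem_filter] at h1
    obtain ⟨a1, a2, ⟨σ, a3⟩, a4⟩ := h1
    rw [Pool.Agent.R470.VM.NDP, mem_filter]
    refine ⟨a1, a2, ⟨σ, fun i => ?_⟩, a4⟩
    by_contra hne
    rw [not_le] at hne
    have : i ∈ univ.filter fun i => (H : ℤ) < |(p.1 i : ℤ) - p.2 (σ i)| := by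
      rw [mem_filter]; exact ⟨mem_univ _, hne⟩
    have h2 := card_pos.2 ⟨i, this⟩
    omega
  · intro r h1 hr
    obtain ⟨C, hC⟩ := bound s k r hk hs h1 hr
    refine ⟨C, fun N H hH hHN => ?_⟩
    have h2 := card_le_card (sub_floor s k r N H)
    rw [Nat.floor_natCast] at h2
    exact h2.trans (hC N H hH hHN)
  · intro r h1 hr θ h0 hθ
    rw [lt_min_iff] at hθ
    have hsr : (0 : ℝ) < (s : ℝ) - r := by
      have : (r : ℝ) < s := by exact_mod_cast hr.trans hs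
      linarith
    have hks : (k : ℝ) < s := by exact_mod_cast hs
    have e1 : θ * ((s : ℝ) - r) < (k : ℝ) - r := (lt_div_iff₀ hsr).1 hθ.1
    have e2 : θ * (k : ℝ) < 2 := (lt_div_iff₀ hk0).1 hθ.2
    obtain ⟨C, hC⟩ := real_bound s k r hk hs h1 hr.le
    refine ⟨min ((k : ℝ) - r - θ * ((s : ℝ) - r)) (2 - θ * k), lt_min (by linarith) (by linarith), C,
      fun N hN => hC θ _ h0 ?_ ?_ ?_ N hN⟩
    · have : θ * ((s : ℝ) - r) ≤ 1 * ((s : ℝ) - r) := by linarith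
      exact le_of_mul_le_mul_right this hsr
    · linarith [min_le_left ((k : ℝ) - r - θ * ((s : ℝ) - r)) (2 - θ * k)]
    · linarith [min_le_right ((k : ℝ) - r - θ * ((s : ℝ) - r)) (2 - θ * k)]
  · intro r h1 hr
    have hsr : (0 : ℝ) < (s : ℝ) - r := by
      have : (r : ℝ) < s := by exact_mod_cast hr.trans hs
      linarith
    have hkr : (0 : ℝ) < (k : ℝ) - r := by
      have : (r : ℝ) < k := by exact_mod_cast hr
      linarith
    have hks : (k : ℝ) < s := by exact_mod_cast hs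
    obtain ⟨C, hC⟩ := real_bound s k r hk hs h1 hr.le
    set θ : ℝ := min (((k : ℝ) - r) / ((s : ℝ) - r)) (2 / (k : ℝ)) with hθ
    have hθ0 : 0 ≤ θ := le_min (by positivity) (by positivity)
    have e1 : θ * ((s : ℝ) - r) ≤ (k : ℝ) - r := (le_div_iff₀ hsr).1 (min_le_left _ _)
    have e2 : θ * (k : ℝ) ≤ 2 := (le_div_iff₀ hk0).1 (min_le_right _ _)
    refine ⟨C + s.factorial, fun N hN => ?_⟩
    have h2 := hC θ 0 hθ0 ?_ (by linarith) (by linarith) N hN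
    · rw [sub_zero, Real.rpow_natCast] at h2
      have h3 : (fewFar s k r N ((N : ℝ) ^ θ)).card ≤
          (nonDiag s k r N ((N : ℝ) ^ θ)).card + s.factorial * N ^ s := by
        rw [← card_filter_add_card_filter_not (s := fewFar s k r N ((N : ℝ) ^ θ))
          (fun p => ¬ ∃ σ : Equiv.Perm (Fin s), p.2 = p.1 ∘ σ)]
        refine Nat.add_le_add (le_of_eq ?_) (le_trans (card_le_card ?_)
          (Pool.Agent.R470.VM.diag_le s N))
        · rw [nonDiag]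
        · intro p hp
          rw [mem_filter, fewFar, mem_filter, not_not] at hp
          rw [mem_filter]
          exact ⟨hp.1.1, hp.2⟩
      have h4 : ((fewFar s k r N ((N : ℝ) ^ θ)).card : ℝ) ≤
          ((nonDiag s k r N ((N : ℝ) ^ θ)).card : ℝ) + s.factorial * (N : ℝ) ^ s := by
        exact_mod_cast h3
      linarith
    · have : θ * ((s : ℝ) - r) ≤ 1 * ((s : ℝ) - r) := by linarith
      exact le_of_mul_le_mul_right this hsr

end Pool.Agent.Results.MP_e21eee_nt.NearDiagonal
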